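import Mathlib
import Pool.Agent.Helper9.AlmostGolombDefs
import Pool.Agent.Helper9.AlmostGolomb
import Pool.Agent.Helper9.AlmostGolombExist

set_option autoImplicit false
open Filter Topology
open Pool.Agent.Helper9.AlmostGolomb

namespace Pool.Agent.Results.MP_04502c_nt.LmaxTendsToZero

/-- Explicit form: for `r ≥ 3000 K^4` one has `Lmax ≤ 1 / K`. -/
theorem Lmax_le (r : ℕ) (a : ℤ → ℤ) (h : IsSolution r a) (K : ℕ) (hK : 1 ≤ K)
    (hr : 3000 * K ^ 4 ≤ r) : 0 ≤ Lmax a ∧ Lmax a ≤ 1 / (K : ℝ) := by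
  have hb := h.main_bound K hK hr
  have hK0 : (0 : ℝ) < K := by exact_mod_cast hK
  have hev : ∀ᶠ n : ℕ in atTop, (a (n : ℤ) : ℝ) / (n : ℝ) ≤ 1 / (K : ℝ) := by
    filter_upwards [eventually_ge_atTop r, eventually_gt_atTop 0] with n hn hn0
    have h1 := (hb n hn).1
    have hn' : (0 : ℝ) < n := by exact_mod_cast hn0
    rw [div_le_div_iff₀ hn' hK0]
    have h2 : (K : ℤ) * a n ≤ n := by nlinarith
    have h3 : (K : ℝ) * (a (n : ℤ) : ℝ) ≤ n := by exact_mod_cast h2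
    linarith
  have hnn : ∀ n : ℕ, 0 ≤ (a (n : ℤ) : ℝ) / (n : ℝ) := by
    intro n
    have : (0 : ℝ) ≤ (a (n : ℤ) : ℝ) := by exact_mod_cast h.nonneg n
    positivity
  have hle1 : ∀ n : ℕ, (a (n : ℤ) : ℝ) / (n : ℝ) ≤ 1 := by
    intro n
    apply div_le_one_of_le₀ _ (Nat.cast_nonneg n)
    exact_mod_cast h.le_self n
  have hbdd : IsBoundedUnder (· ≤ ·) atTop (fun n : ℕ => (a (n : ℤ) : ℝ) / (n : ℝ)) :=
    isBoundedUnder_of ⟨1, hle1⟩
  have hcobdd : IsCoboundedUnder (· ≤ ·) atTop (fun n : ℕ => (a (n : ℤ) : ℝ) / (n : ℝ)) :=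
    (isBoundedUnder_of ⟨0, hnn⟩ : IsBoundedUnder (· ≥ ·) atTop
      (fun n : ℕ => (a (n : ℤ) : ℝ) / (n : ℝ))).isCoboundedUnder_le
  constructor
  · exact le_limsup_of_frequently_le (Frequently.of_forall hnn) hbdd
  · exact limsup_le_of_le hcobdd hev

/-- For every `r ≥ 2` the almost Golomb sequence of order `r` exists and is unique, and
`Lmax(r) → 0` as `r → ∞`; the limit statement holds for every choice of solutions of the
recurrence, hence for the greedy one. -/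
theorem result :
    (∀ r : ℕ, 2 ≤ r → ∃! a : ℤ → ℤ, IsAlmostGolomb r a) ∧
    ∀ a : ℕ → ℤ → ℤ, (∀ r : ℕ, 2 ≤ r → IsSolution r (a r)) →
      Tendsto (fun r : ℕ => Lmax (a r)) atTop (𝓝 0) := by
  constructor
  · intro r hr
    refine ⟨grZ r, ⟨grZ_isSolution r hr, grZ_isGreedy r hr⟩, ?_⟩
    rintro b ⟨hb1, hb2⟩
    exact greedy_unique r b (grZ r) hb1 hb2 (grZ_isSolution r hr) (grZ_isGreedy r hr)
  · intro a ha
    rw [Metric.tendsto_atTop]
    intro ε hε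
    obtain ⟨K, hK⟩ := exists_nat_gt (1 / ε)
    have hK0 : (0 : ℝ) < K := lt_trans (by positivity) hK
    have hK1 : 1 ≤ K := by exact_mod_cast hK0
    refine ⟨3000 * K ^ 4, fun r hr => ?_⟩
    have h2 : 2 ≤ r := by
      have : 1 ≤ K ^ 4 := Nat.one_le_pow _ _ hK1
      omega
    obtain ⟨h3, h4⟩ := Lmax_le r (a r) (ha r h2) K hK1 hr
    rw [Real.dist_eq, sub_zero, abs_of_nonneg h3]
    refine lt_of_le_of_lt h4 ?_
    rw [div_lt_iff₀ hK0]
    rw [div_lt_iff₀ hε] at hK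
    linarith

end Pool.Agent.Results.MP_04502c_nt.LmaxTendsToZero
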